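import Pool.Agent.helper11.TX.Spec2

/-!
# tx:LP. One pair of coefficients (the lemmas are copied from helper63/TX/LA.lean)
-/

set_option autoImplicit false

namespace Pool.Agent.helper11.TX

open Finset

theorem LP_sum (l : ℕ) (hl : 0 < l) (g : ℤ → ℝ) (v0 v1 : ℝ) (h0 : g 0 = v0)
    (h1 : ∀ r : ℕ, 0 < r → r < l → g r = v1) :
    ∑ r ∈ range l, g (r : ℤ) = v0 + ((l : ℝ) - 1) * v1 := by
  obtain ⟨n, rfl⟩ : ∃ n, l = n + 1 := ⟨l - 1, by omega⟩
  rw [Finset.sum_range_succ']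
  have e : ∀ r ∈ range n, g ((r + 1 : ℕ) : ℤ) = v1 := fun r hr => h1 (r + 1) (by omega) (by
    have := Finset.mem_range.1 hr
    omega)
  rw [Finset.sum_congr rfl e, Finset.sum_const, Finset.card_range, nsmul_eq_mul, Nat.cast_zero, h0]
  push_cast
  ring

noncomputable def LP_f (W a b l : ℕ) (c : ℤ) : ℝ :=
  (if l ∣ W then (if (l : ℤ) ∣ a * b * c then 1 - 1 / (l : ℝ) else 1 - 2 / (l : ℝ)) else 1) *
    (if l ∣ a * b ∧ (l : ℤ) ∣ c then 0 else 1)

theorem LP_f_nonneg (W a b l : ℕ) (hl : l.Prime) (c : ℤ) : 0 ≤ LP_f W a b l c := by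
  have h2 : (2 : ℝ) ≤ l := by exact_mod_cast hl.two_le
  have h0 : (0 : ℝ) < l := by linarith
  have e1 : 0 ≤ 1 - 1 / (l : ℝ) := by
    rw [sub_nonneg, div_le_one h0]
    linarith
  have e2 : 0 ≤ 1 - 2 / (l : ℝ) := by
    rw [sub_nonneg, div_le_one h0]
    exact h2
  unfold LP_f
  apply mul_nonneg
  · split_ifs
    · exact e1
    · exact e2
    · exact zero_le_one
  · split_ifs
    · exact le_rfl
    · exact zero_le_one

theorem LP_f_per (W a b l : ℕ) (c k : ℤ) : LP_f W a b l (c + l * k) = LP_f W a b l c := by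
  unfold LP_f
  have e1 : ((l : ℤ) ∣ a * b * (c + l * k)) ↔ ((l : ℤ) ∣ a * b * c) := by
    have : (a : ℤ) * b * (c + l * k) = a * b * c + l * (a * b * k) := by ring
    rw [this]
    exact dvd_add_left (dvd_mul_right _ _)
  have e2 : ((l : ℤ) ∣ c + l * k) ↔ ((l : ℤ) ∣ c) := dvd_add_left (dvd_mul_right _ _)
  simp only [e1, e2]

theorem LP_local (W a b l : ℕ) (hl : l.Prime) (hlP : l ∣ W ∨ l ∣ a * b) :
    ∑ r ∈ range l, LP_f W a b l (r : ℤ) =
      (l : ℝ) * (if l ∣ W then (1 - 1 / (l : ℝ)) ^ 2 else (1 - 1 / (l : ℝ))) := by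
  have h0 : (l : ℝ) ≠ 0 := by exact_mod_cast hl.ne_zero
  have hnd : ∀ r : ℕ, 0 < r → r < l → ¬ ((l : ℤ) ∣ (r : ℤ)) := by
    intro r hr hrl hd
    have := Nat.le_of_dvd hr (by exact_mod_cast hd)
    omega
  by_cases hab : l ∣ a * b
  · have habz : ∀ c : ℤ, (l : ℤ) ∣ a * b * c := fun c => Dvd.dvd.mul_right (by exact_mod_cast hab) c
    by_cases hW : l ∣ W
    · rw [LP_sum l hl.pos (LP_f W a b l) 0 (1 - 1 / (l : ℝ))]
      · rw [if_pos hW]
        field_simp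
        ring
      · unfold LP_f
        simp [hab]
      · intro r hr hrl
        unfold LP_f
        rw [if_pos hW, if_pos (habz _), if_neg (fun hh => hnd r hr hrl hh.2), mul_one]
    · rw [LP_sum l hl.pos (LP_f W a b l) 0 1]
      · rw [if_neg hW]
        field_simp
        ring
      · unfold LP_f
        simp [hab]
      · intro r hr hrl
        unfold LP_f
        rw [if_neg hW, if_neg (fun hh => hnd r hr hrl hh.2), mul_one]
  · have hW : l ∣ W := hlP.resolve_right hab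
    rw [LP_sum l hl.pos (LP_f W a b l) (1 - 1 / (l : ℝ)) (1 - 2 / (l : ℝ))]
    · rw [if_pos hW]
      field_simp
      ring
    · unfold LP_f
      simp [hab, hW]
    · intro r hr hrl
      unfold LP_f
      have hp : Prime (l : ℤ) := Nat.prime_iff_prime_int.mp hl
      have e : ¬ ((l : ℤ) ∣ a * b * (r : ℤ)) := by
        intro hd
        rcases hp.dvd_or_dvd hd with hh | hh
        · exact hab (by exact_mod_cast hh)
        · exact hnd r hr hrl hh
      rw [if_pos hW, if_neg e, if_neg (fun hh => hab hh.1), mul_one]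

theorem LP_filter1 (W a b : ℕ) (hW : 0 < W) (ha : 0 < a) (hb : 0 < b) :
    (a * b * W).primeFactors.filter (fun l => l ∣ W) = W.primeFactors := by
  ext l
  rw [Finset.mem_filter, Nat.mem_primeFactors, Nat.mem_primeFactors]
  constructor
  · rintro ⟨⟨h1, -, -⟩, h2⟩
    exact ⟨h1, h2, hW.ne'⟩
  · rintro ⟨h1, h2, -⟩
    exact ⟨⟨h1, Dvd.dvd.mul_left h2 _, (Nat.mul_pos (Nat.mul_pos ha hb) hW).ne'⟩, h2⟩

theorem LP_filter2 (W a b : ℕ) (hW : 0 < W) (ha : 0 < a) (hb : 0 < b) :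
    (a * b * W).primeFactors.filter (fun l => ¬ l ∣ W) =
      (a * b).primeFactors.filter (fun l => ¬ l ∣ W) := by
  ext l
  rw [Finset.mem_filter, Finset.mem_filter, Nat.mem_primeFactors, Nat.mem_primeFactors]
  constructor
  · rintro ⟨⟨h1, h3, -⟩, h2⟩
    exact ⟨⟨h1, (h1.dvd_mul.1 h3).resolve_right h2, (Nat.mul_pos ha hb).ne'⟩, h2⟩
  · rintro ⟨⟨h1, h3, -⟩, h2⟩
    exact ⟨⟨h1, Dvd.dvd.mul_right h3 _, (Nat.mul_pos (Nat.mul_pos ha hb) hW).ne'⟩, h2⟩

theorem LP_prodsum (W a b : ℕ) (hW : 0 < W) (ha : 0 < a) (hb : 0 < b) :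
    ∏ l ∈ (a * b * W).primeFactors, ∑ r ∈ range l, LP_f W a b l (r : ℤ) =
      (∏ l ∈ (a * b * W).primeFactors, (l : ℝ)) * (PW W ^ 2 * yy W (a * b)) := by
  have e1 : ∏ l ∈ (a * b * W).primeFactors, ∑ r ∈ range l, LP_f W a b l (r : ℤ) =
      ∏ l ∈ (a * b * W).primeFactors,
        ((l : ℝ) * (if l ∣ W then (1 - 1 / (l : ℝ)) ^ 2 else (1 - 1 / (l : ℝ)))) := by
    refine Finset.prod_congr rfl fun l hl => ?_
    rw [Nat.mem_primeFactors] at hl
    exact LP_local W a b l hl.1 ((hl.1.dvd_mul.1 hl.2.1).symm)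
  rw [e1, Finset.prod_mul_distrib, Finset.prod_ite, LP_filter1 W a b hW ha hb,
    LP_filter2 W a b hW ha hb]
  unfold PW yy
  rw [Finset.prod_pow]

theorem LP_prod (W a b : ℕ) (c : ℤ) (hW : 0 < W) (hadm : Adm a b c) :
    ∏ l ∈ (a * b * W).primeFactors, LP_f W a b l c = Lam W a b c := by
  obtain ⟨ha, hb, -, -, hac, hbc, -⟩ := hadm
  have e1 : ∏ l ∈ (a * b * W).primeFactors, LP_f W a b l c =
      ∏ l ∈ (a * b * W).primeFactors,
        (if l ∣ W then (if (l : ℤ) ∣ a * b * c then 1 - 1 / (l : ℝ) else 1 - 2 / (l : ℝ)) else 1) := by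
    refine Finset.prod_congr rfl fun l hl => ?_
    rw [Nat.mem_primeFactors] at hl
    have hp : Prime (l : ℤ) := Nat.prime_iff_prime_int.mp hl.1
    have e : ¬ (l ∣ a * b ∧ (l : ℤ) ∣ c) := by
      rintro ⟨h1, h2⟩
      rcases hl.1.dvd_mul.1 h1 with h3 | h3
      · exact hp.not_isUnit (hac.isUnit_of_dvd' (by exact_mod_cast h3) h2)
      · exact hp.not_isUnit (hbc.isUnit_of_dvd' (by exact_mod_cast h3) h2)
    unfold LP_f
    rw [if_neg e, mul_one]
  rw [e1, Finset.prod_ite, LP_filter1 W a b hW ha hb, Finset.prod_const_one, mul_one]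
  rfl

open Classical in
theorem LP_inner (h : CR_stmt) (W N a b M : ℕ) (u : ℤ) (hW : 0 < W) (ha : 0 < a)
    (hb : 0 < b) (haN : a ≤ N) (hbN : b ≤ N) :
    ∑ c ∈ Ioc ((b : ℤ) * u) ((b : ℤ) * (u + M)) with Adm a b c, Lam W a b c ≤
      ((b : ℝ) * M + (N : ℝ) ^ 2 * W) * (PW W ^ 2 * yy W (a * b)) := by
  have hpos : 0 < a * b * W := Nat.mul_pos (Nat.mul_pos ha hb) hW
  have h1 : ∑ c ∈ Ioc ((b : ℤ) * u) ((b : ℤ) * (u + M)) with Adm a b c, Lam W a b c =
      ∑ c ∈ Ioc ((b : ℤ) * u) ((b : ℤ) * (u + M)) with Adm a b c,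
        ∏ l ∈ (a * b * W).primeFactors, LP_f W a b l c := by
    refine Finset.sum_congr rfl fun c hc => ?_
    rw [LP_prod W a b c hW (Finset.mem_filter.1 hc).2]
  rw [h1]
  have h2 : ∑ c ∈ Ioc ((b : ℤ) * u) ((b : ℤ) * (u + M)) with Adm a b c,
        ∏ l ∈ (a * b * W).primeFactors, LP_f W a b l c ≤
      ∑ c ∈ Ioc ((b : ℤ) * u) ((b : ℤ) * (u + M)),
        ∏ l ∈ (a * b * W).primeFactors, LP_f W a b l c := by
    refine Finset.sum_le_sum_of_subset_of_nonneg (Finset.filter_subset _ _) fun c _ _ => ?_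
    exact Finset.prod_nonneg fun l hl => LP_f_nonneg W a b l (Nat.mem_primeFactors.1 hl).1 c
  refine h2.trans ?_
  have h3 := (h (a * b * W).primeFactors (LP_f W a b)
    (fun l hl => (Nat.mem_primeFactors.1 hl).1)
    (fun l hl c => LP_f_nonneg W a b l (Nat.mem_primeFactors.1 hl).1 c)
    (fun l _ c k => LP_f_per W a b l c k) ((b : ℤ) * u) (b * M)).1
  have e : ((b : ℤ) * u + ((b * M : ℕ) : ℤ)) = (b : ℤ) * (u + M) := by
    push_cast
    ring
  rw [e, LP_prodsum W a b hW ha hb] at h3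
  refine h3.trans ?_
  have hDnat : ∏ l ∈ (a * b * W).primeFactors, l ≤ a * b * W :=
    Nat.le_of_dvd hpos (Nat.prod_primeFactors_dvd _)
  have hD : ∏ l ∈ (a * b * W).primeFactors, (l : ℝ) ≤ (N : ℝ) ^ 2 * W := by
    have e1 : (∏ l ∈ (a * b * W).primeFactors, (l : ℝ)) =
        ((∏ l ∈ (a * b * W).primeFactors, l : ℕ) : ℝ) := by push_cast; rfl
    rw [e1]
    have e2 : a * b * W ≤ N ^ 2 * W := by
      rw [pow_two]
      exact Nat.mul_le_mul_right _ (Nat.mul_le_mul haN hbN)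
    calc ((∏ l ∈ (a * b * W).primeFactors, l : ℕ) : ℝ) ≤ ((N ^ 2 * W : ℕ) : ℝ) := by
          exact_mod_cast hDnat.trans e2
      _ = (N : ℝ) ^ 2 * W := by push_cast; ring
  have hDpos : 0 < ∏ l ∈ (a * b * W).primeFactors, (l : ℝ) :=
    Finset.prod_pos fun l hl => by exact_mod_cast (Nat.mem_primeFactors.1 hl).1.pos
  have hYpos : 0 ≤ PW W ^ 2 * yy W (a * b) := by
    apply mul_nonneg (sq_nonneg _)
    unfold yy
    refine Finset.prod_nonneg fun l hl => ?_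
    have hl1 := (Nat.mem_primeFactors.1 (Finset.mem_filter.1 hl).1).1
    have h0 : (0 : ℝ) < l := by exact_mod_cast hl1.pos
    rw [sub_nonneg, div_le_one h0]
    exact_mod_cast hl1.one_lt.le
  rw [← mul_assoc]
  apply mul_le_mul_of_nonneg_right _ hYpos
  rw [add_mul, div_mul_cancel₀ _ hDpos.ne', one_mul]
  push_cast
  linarith

theorem LP (h : CR_stmt) : LP_stmt := by
  classical
  intro W a b hW ha hb δ hδ
  obtain ⟨M₀, hM₀⟩ := exists_nat_ge (((max a b : ℕ) : ℝ) ^ 2 * W / δ)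
  refine ⟨M₀, fun M hM u => ?_⟩
  have hM1 : ((max a b : ℕ) : ℝ) ^ 2 * W ≤ δ * M := by
    rw [div_le_iff₀ hδ] at hM₀
    have : (M₀ : ℝ) ≤ M := by exact_mod_cast hM
    nlinarith
  have h1 := LP_inner h W (max a b) a b M u hW ha hb (le_max_left _ _) (le_max_right _ _)
  have hl : ∀ l ∈ (a * b).primeFactors.filter (fun l => ¬ l ∣ W),
      0 ≤ 1 - 1 / (l : ℝ) ∧ 1 - 1 / (l : ℝ) ≤ 1 := by
    intro l hl
    have hl1 := (Nat.mem_primeFactors.1 (Finset.mem_filter.1 hl).1).1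
    have h0 : (0 : ℝ) < l := by exact_mod_cast hl1.pos
    constructor
    · rw [sub_nonneg, div_le_one h0]
      exact_mod_cast hl1.one_lt.le
    · have : 0 ≤ 1 / (l : ℝ) := by positivity
      linarith
  have hyy0 : 0 ≤ yy W (a * b) := by
    unfold yy
    exact Finset.prod_nonneg fun l h => (hl l h).1
  have hyy1 : yy W (a * b) ≤ 1 := by
    unfold yy
    exact Finset.prod_le_one (fun l h => (hl l h).1) fun l h => (hl l h).2
  have hb1 : (1 : ℝ) ≤ b := by exact_mod_cast hb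
  have hPW : 0 ≤ PW W ^ 2 := sq_nonneg _
  have h2 : PW W ^ 2 * yy W (a * b) ≤ PW W ^ 2 := mul_le_of_le_one_right hPW hyy1
  have hM0 : (0 : ℝ) ≤ M := Nat.cast_nonneg M
  unfold Tw
  refine h1.trans ?_
  calc ((b : ℝ) * M + ((max a b : ℕ) : ℝ) ^ 2 * W) * (PW W ^ 2 * yy W (a * b))
      ≤ ((b : ℝ) * M + ((max a b : ℕ) : ℝ) ^ 2 * W) * PW W ^ 2 := by
        apply mul_le_mul_of_nonneg_left h2
        positivity
    _ ≤ ((1 + δ) * (b * M)) * PW W ^ 2 := by
        apply mul_le_mul_of_nonneg_right _ hPW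
        have h3 : δ * M ≤ δ * (b * M) := by
          apply mul_le_mul_of_nonneg_left _ hδ.le
          nlinarith
        linarith

end Pool.Agent.helper11.TX
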